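import Pool.Agent.Lib.LD.Def

/-!
# H56LD, file S7: the predicate `U` and the reduction at an uncrossed separation (MP_33911d, form D)
-/

set_option autoImplicit false
set_option linter.unusedSectionVars false

namespace H56LD

open Finset H98M LD

variable {V : Type*} [DecidableEq V]

theorem sep_mem {E : Finset (Sym2 V)} {Y : Finset V} {x y : V} {P Q : Finset V} (h : Sep E Y x y P Q)
    (v : V) : v ∈ Y ↔ v = x ∨ v = y ∨ v ∈ P ∨ v ∈ Q := by
  rw [← h.eq, mem_insert, mem_insert, mem_union]

theorem mem_red {E : Finset (Sym2 V)} {Y Q : Finset V} {x y a b : V} :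
    s(a, b) ∈ red E Y x y Q ↔ s(a, b) = s(x, y) ∨ (s(a, b) ∈ E ∧ (a ∈ Y ∧ a ∉ Q) ∧ b ∈ Y ∧ b ∉ Q) := by
  unfold red
  rw [mem_insert, mem_inter, mk_mem_sym2_iff, mem_sdiff, mem_sdiff]

/-- `Unc` is inherited by the reduction. -/
theorem unc_red {E : Finset (Sym2 V)} {Y : Finset V} {x y u v : V} {C D : Finset V}
    (hu : Unc E Y x y) (h : Sep E Y u v C D) : Unc (red E Y u v D) (Y \ D) x y := by
  intro a b P Q hs ⟨hx, hy⟩
  have hY := sep_mem h
  have hY1 := sep_mem hs
  have hPY : ∀ w ∈ P, w ∈ Y ∧ w ∉ D := fun w hw => mem_sdiff.1 ((hY1 w).2 (Or.inr (Or.inr (Or.inl hw))))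
  have hQY : ∀ w ∈ Q, w ∈ Y ∧ w ∉ D := fun w hw => mem_sdiff.1 ((hY1 w).2 (Or.inr (Or.inr (Or.inr hw))))
  have haY : a ∈ Y ∧ a ∉ D := mem_sdiff.1 ((hY1 a).2 (Or.inl rfl))
  have hbY : b ∈ Y ∧ b ∉ D := mem_sdiff.1 ((hY1 b).2 (Or.inr (Or.inl rfl)))
  have hD : ∀ d ∈ D, ∀ w, w ∈ Y → w ∉ D → s(d, w) ∈ E → w = u ∨ w = v := by
    intro d hd w hw hwD he
    rcases (hY w).1 hw with h1 | h1 | h1 | h1
    · exact Or.inl h1
    · exact Or.inr h1
    · exact absurd (by rw [Sym2.eq_swap]; exact he) (h.noE w h1 d hd)
    · exact absurd h1 hwD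
  have hold : ∀ p ∈ P, ∀ q ∈ Q, s(p, q) ∉ E := by
    intro p hp q hq he
    exact hs.noE p hp q hq (mem_red.2 (Or.inr ⟨he, hPY p hp, hQY q hq⟩))
  have huv : ¬ (u ∈ P ∧ v ∈ Q) := fun h1 => hs.noE u h1.1 v h1.2 (mem_red.2 (Or.inl rfl))
  have hvu : ¬ (v ∈ P ∧ u ∈ Q) := fun h1 =>
    hs.noE v h1.1 u h1.2 (mem_red.2 (Or.inl Sym2.eq_swap))
  have huY : u ∈ Y ∧ u ∉ D := ⟨(hY u).2 (Or.inl rfl), h.xQ⟩
  have hvY : v ∈ Y ∧ v ∉ D := ⟨(hY v).2 (Or.inr (Or.inl rfl)), h.yQ⟩
  by_cases hQ : u ∉ Q ∧ v ∉ Q
  · -- `D` goes to the side `P`
    refine hu a b (P ∪ D) Q ⟨hs.ne, ?_, hs.xQ, ?_, hs.yQ, ?_, hs.Q0, ?_, ?_, ?_⟩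
      ⟨mem_union_left _ hx, hy⟩
    · rw [mem_union]
      rintro (h1 | h1)
      · exact hs.xP h1
      · exact haY.2 h1
    · rw [mem_union]
      rintro (h1 | h1)
      · exact hs.yP h1
      · exact hbY.2 h1
    · exact hs.P0.mono subset_union_left
    · rw [disjoint_union_left]
      exact ⟨hs.dis, disjoint_left.2 fun w hw hw' => (hQY w hw').2 hw⟩
    · ext w
      have h1 := hY1 w
      have h2 := hY w
      rw [mem_sdiff] at h1
      simp only [mem_insert, mem_union]
      constructor
      · rintro (h3 | h3 | (h3 | h3) | h3)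
        · rw [h3]; exact haY.1
        · rw [h3]; exact hbY.1
        · exact (hPY w h3).1
        · exact h2.2 (Or.inr (Or.inr (Or.inr h3)))
        · exact (hQY w h3).1
      · intro h3
        by_cases h4 : w ∈ D
        · exact Or.inr (Or.inr (Or.inl (Or.inr h4)))
        · rcases h1.1 ⟨h3, h4⟩ with h5 | h5 | h5 | h5
          · exact Or.inl h5
          · exact Or.inr (Or.inl h5)
          · exact Or.inr (Or.inr (Or.inl (Or.inl h5)))
          · exact Or.inr (Or.inr (Or.inr h5))
    · intro p hp q hq he
      rcases mem_union.1 hp with h1 | h1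
      · exact hold p h1 q hq he
      · rcases hD p h1 q (hQY q hq).1 (hQY q hq).2 he with h2 | h2
        · exact hQ.1 (h2 ▸ hq)
        · exact hQ.2 (h2 ▸ hq)
  · have hP : u ∉ P ∧ v ∉ P := by
      constructor
      · intro h1
        apply hQ
        refine ⟨fun h2 => disjoint_left.1 hs.dis h1 h2, fun h2 => huv ⟨h1, h2⟩⟩
      · intro h1
        apply hQ
        refine ⟨fun h2 => hvu ⟨h1, h2⟩, fun h2 => disjoint_left.1 hs.dis h1 h2⟩
    refine hu a b P (Q ∪ D) ⟨hs.ne, hs.xP, ?_, hs.yP, ?_, hs.P0, ?_, ?_, ?_, ?_⟩
      ⟨hx, mem_union_left _ hy⟩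
    · rw [mem_union]
      rintro (h1 | h1)
      · exact hs.xQ h1
      · exact haY.2 h1
    · rw [mem_union]
      rintro (h1 | h1)
      · exact hs.yQ h1
      · exact hbY.2 h1
    · exact hs.Q0.mono subset_union_left
    · rw [disjoint_union_right]
      exact ⟨hs.dis, disjoint_left.2 fun w hw hw' => (hPY w hw).2 hw'⟩
    · ext w
      have h1 := hY1 w
      have h2 := hY w
      rw [mem_sdiff] at h1
      simp only [mem_insert, mem_union]
      constructor
      · rintro (h3 | h3 | h3 | (h3 | h3))
        · rw [h3]; exact haY.1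
        · rw [h3]; exact hbY.1
        · exact (hPY w h3).1
        · exact (hQY w h3).1
        · exact h2.2 (Or.inr (Or.inr (Or.inr h3)))
      · intro h3
        by_cases h4 : w ∈ D
        · exact Or.inr (Or.inr (Or.inr (Or.inr h4)))
        · rcases h1.1 ⟨h3, h4⟩ with h5 | h5 | h5 | h5
          · exact Or.inl h5
          · exact Or.inr (Or.inl h5)
          · exact Or.inr (Or.inr (Or.inl h5))
          · exact Or.inr (Or.inr (Or.inr (Or.inl h5)))
    · intro p hp q hq he
      rcases mem_union.1 hq with h1 | h1
      · exact hold p hp q h1 he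
      · rcases hD q h1 p (hPY p hp).1 (hPY p hp).2 (by rw [Sym2.eq_swap]; exact he) with h2 | h2
        · exact hP.1 (h2 ▸ hp)
        · exact hP.2 (h2 ▸ hp)

/-- (S7), the nontrivial direction, from (S1), (S2), (S4), (S6). -/
theorem u_side'
    (S1 : ∀ {E : Finset (Sym2 V)} {Y : Finset V} {x y : V} {P Q : Finset V}, TCY E Y → Sep E Y x y P Q →
      TCY (red E Y x y Q) (Y \ Q))
    (S2 : ∀ {E : Finset (Sym2 V)} {Y : Finset V} {x y : V} {P Q A : Finset V}, TCY E Y →
      Sep E Y x y P Q → A ⊆ Y \ Q → H85TF.Cov (red E Y x y Q) A → H85TF.Cov E A)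
    (S4 : ∀ {E : Finset (Sym2 V)} {Y W : Finset V}, TCY E Y → (W ∩ Y).card ≤ 2 → ¬ U E Y W)
    (S6 : ∀ {E : Finset (Sym2 V)} {Y : Finset V} {x y u v : V} {P Q C D : Finset V}, TCY E Y →
      Sep E Y x y P Q → Sep E Y u v C D → x ∉ C → y ∉ C → ¬ ((u = x ∧ v = y) ∨ (u = y ∧ v = x)) →
      (C ⊆ P ∧ u ∉ Q ∧ v ∉ Q) ∨ (C ⊆ Q ∧ u ∉ P ∧ v ∉ P))
    {E : Finset (Sym2 V)} {Y W : Finset V} (hU : U E Y W) :
    ∀ {x y : V} {P Q : Finset V}, TCY E Y → Sep E Y x y P Q → Unc E Y x y → Disjoint W Q →
      U (red E Y x y Q) (Y \ Q) W := by
  induction hU with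
  | @base E Y W h =>
    intro x y P Q hT hs _ hW
    refine U.base fun h1 => h ?_
    have h2 : W ∩ (Y \ Q) = W ∩ Y := by
      ext w
      simp only [mem_inter, mem_sdiff]
      exact ⟨fun h3 => ⟨h3.1, h3.2.1⟩, fun h3 => ⟨h3.1, h3.2, disjoint_left.1 hW h3.1⟩⟩
    rw [← h2]
    exact S2 hT hs inter_subset_right h1
  | @step E Y W u v C D hs' hU' ih =>
    intro x y P Q hT hs hu hW
    have hT1 := S1 hT hs'
    have hY := sep_mem hs
    have hY' := sep_mem hs'
    have hPQ := disjoint_left.1 hs.dis
    have hCD := disjoint_left.1 hs'.dis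
    have hWQ := disjoint_left.1 hW
    by_cases hc : (u = x ∧ v = y) ∨ (u = y ∧ v = x)
    · -- the same pair
      have main : ∀ {u v : V}, u = x → v = y → Sep E Y u v C D → U (red E Y u v D) (Y \ D) W →
          (∀ {x y : V} {P Q : Finset V}, TCY (red E Y u v D) (Y \ D) → Sep (red E Y u v D) (Y \ D) x y P Q →
            Unc (red E Y u v D) (Y \ D) x y → Disjoint W Q →
              U (red (red E Y u v D) (Y \ D) x y Q) ((Y \ D) \ Q) W) → U (red E Y x y Q) (Y \ Q) W := by
        intro u v hux hvy hs' hU' ih
        subst hux hvy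
        have hT1 := S1 hT hs'
        have hY' := sep_mem hs'
        have hpart : ∀ w, (w ∈ P ∨ w ∈ Q) ↔ (w ∈ C ∨ w ∈ D) := by
          intro w
          constructor
          · intro h1
            have h2 := (hY w).2 (Or.inr (Or.inr h1))
            rcases (hY' w).1 h2 with h3 | h3 | h3
            · subst h3
              rcases h1 with h1 | h1
              · exact absurd h1 hs.xP
              · exact absurd h1 hs.xQ
            · subst h3
              rcases h1 with h1 | h1
              · exact absurd h1 hs.yP
              · exact absurd h1 hs.yQ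
            · exact h3
          · intro h1
            have h2 := (hY' w).2 (Or.inr (Or.inr h1))
            rcases (hY w).1 h2 with h3 | h3 | h3
            · subst h3
              rcases h1 with h1 | h1
              · exact absurd h1 hs'.xP
              · exact absurd h1 hs'.xQ
            · subst h3
              rcases h1 with h1 | h1
              · exact absurd h1 hs'.yP
              · exact absurd h1 hs'.yQ
            · exact h3
        by_cases hPC : (P ∩ C).Nonempty
        · -- `U` for the part without `D` and `Q`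
          have hR : U (insert s(u, v) (E ∩ ((Y \ D) \ Q).sym2)) ((Y \ D) \ Q) W := by
            by_cases hQC : (Q ∩ C).Nonempty
            · have hs1 : Sep (red E Y u v D) (Y \ D) u v (P ∩ C) (Q ∩ C) := by
                refine ⟨hs.ne, fun h => hs.xP (mem_inter.1 h).1, fun h => hs.xQ (mem_inter.1 h).1,
                  fun h => hs.yP (mem_inter.1 h).1, fun h => hs.yQ (mem_inter.1 h).1, hPC, hQC,
                  hs.dis.mono inter_subset_left inter_subset_left, ?_, ?_⟩
                · ext w
                  have h1 := hY w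
                  have h2 := hY' w
                  have h3 := hpart w
                  have h4 := @hCD w
                  simp only [mem_insert, mem_union, mem_inter, mem_sdiff]
                  constructor
                  · rintro (h5 | h5 | h5 | h5)
                    · exact ⟨h1.2 (Or.inl h5), h5 ▸ hs'.xQ⟩
                    · exact ⟨h1.2 (Or.inr (Or.inl h5)), h5 ▸ hs'.yQ⟩
                    · exact ⟨h1.2 (Or.inr (Or.inr (Or.inl h5.1))), h4 h5.2⟩
                    · exact ⟨h1.2 (Or.inr (Or.inr (Or.inr h5.1))), h4 h5.2⟩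
                  · rintro ⟨h5, h6⟩
                    rcases h2.1 h5 with h7 | h7 | h7 | h7
                    · exact Or.inl h7
                    · exact Or.inr (Or.inl h7)
                    · rcases h3.2 (Or.inl h7) with h8 | h8
                      · exact Or.inr (Or.inr (Or.inl ⟨h8, h7⟩))
                      · exact Or.inr (Or.inr (Or.inr ⟨h8, h7⟩))
                    · exact absurd h7 h6
                · intro a ha b hb he
                  rw [mem_inter] at ha hb
                  rcases mem_red.1 he with h1 | h1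
                  · rcases Sym2.eq_iff.1 h1 with ⟨h2, -⟩ | ⟨h2, -⟩
                    · exact hs.xP (h2 ▸ ha.1)
                    · exact hs.yP (h2 ▸ ha.1)
                  · exact hs.noE a ha.1 b hb.1 h1.1
              have h1 := ih hT1 hs1 (fun a b P' Q' h ⟨h2, h3⟩ => h.noE u h2 v h3 (mem_red.2 (Or.inl rfl)))
                (hW.mono_right inter_subset_left)
              have h2 : (Y \ D) \ (Q ∩ C) = (Y \ D) \ Q := by
                ext w
                have h3 := hY' w
                have h4 := hY w
                simp only [mem_sdiff, mem_inter]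
                constructor
                · rintro ⟨⟨h5, h6⟩, h7⟩
                  refine ⟨⟨h5, h6⟩, fun h8 => ?_⟩
                  rcases (hpart w).1 (Or.inr h8) with h9 | h9
                  · exact h7 ⟨h8, h9⟩
                  · exact h6 h9
                · rintro ⟨h5, h6⟩
                  exact ⟨h5, fun h7 => h6 h7.1⟩
              have h3 : red (red E Y u v D) (Y \ D) u v (Q ∩ C) =
                  insert s(u, v) (E ∩ ((Y \ D) \ Q).sym2) := by
                unfold red
                rw [h2]
                ext e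
                simp only [mem_insert, mem_inter]
                constructor
                · rintro (h4 | ⟨h4 | ⟨h4, h5⟩, h6⟩)
                  · exact Or.inl h4
                  · exact Or.inl h4
                  · exact Or.inr ⟨h4, h6⟩
                · rintro (h4 | ⟨h4, h5⟩)
                  · exact Or.inl h4
                  · exact Or.inr ⟨Or.inr ⟨h4, sym2_mono sdiff_subset h5⟩, h5⟩
              rw [h2, h3] at h1
              exact h1
            · have h1 : (Y \ D) \ Q = Y \ D := by
                rw [Finset.sdiff_eq_self_iff_disjoint, disjoint_left]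
                intro w h2 h3
                rw [mem_sdiff] at h2
                rcases (hpart w).1 (Or.inr h3) with h4 | h4
                · exact hQC ⟨w, mem_inter.2 ⟨h3, h4⟩⟩
                · exact h2.2 h4
              rw [h1]
              exact hU'
          by_cases hPD : (P ∩ D).Nonempty
          · have hs1 : Sep (red E Y u v Q) (Y \ Q) u v (P ∩ C) (P ∩ D) := by
              refine ⟨hs.ne, fun h => hs.xP (mem_inter.1 h).1, fun h => hs.xP (mem_inter.1 h).1,
                fun h => hs.yP (mem_inter.1 h).1, fun h => hs.yP (mem_inter.1 h).1, hPC, hPD,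
                hs'.dis.mono inter_subset_right inter_subset_right, ?_, ?_⟩
              · ext w
                have h1 := hY w
                have h3 := hpart w
                have h4 := @hPQ w
                simp only [mem_insert, mem_union, mem_inter, mem_sdiff]
                constructor
                · rintro (h5 | h5 | h5 | h5)
                  · exact ⟨h1.2 (Or.inl h5), h5 ▸ hs.xQ⟩
                  · exact ⟨h1.2 (Or.inr (Or.inl h5)), h5 ▸ hs.yQ⟩
                  · exact ⟨h1.2 (Or.inr (Or.inr (Or.inl h5.1))), h4 h5.1⟩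
                  · exact ⟨h1.2 (Or.inr (Or.inr (Or.inl h5.1))), h4 h5.1⟩
                · rintro ⟨h5, h6⟩
                  rcases h1.1 h5 with h7 | h7 | h7 | h7
                  · exact Or.inl h7
                  · exact Or.inr (Or.inl h7)
                  · rcases h3.1 (Or.inl h7) with h8 | h8
                    · exact Or.inr (Or.inr (Or.inl ⟨h7, h8⟩))
                    · exact Or.inr (Or.inr (Or.inr ⟨h7, h8⟩))
                  · exact absurd h7 h6
              · intro a ha b hb he
                rw [mem_inter] at ha hb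
                rcases mem_red.1 he with h1 | h1
                · rcases Sym2.eq_iff.1 h1 with ⟨h2, -⟩ | ⟨h2, -⟩
                  · exact hs.xP (h2 ▸ ha.1)
                  · exact hs.yP (h2 ▸ ha.1)
                · exact hs'.noE a ha.2 b hb.2 h1.1
            refine U.step hs1 ?_
            have h2 : (Y \ Q) \ (P ∩ D) = (Y \ D) \ Q := by
              ext w
              have h4 := hY w
              simp only [mem_sdiff, mem_inter]
              constructor
              · rintro ⟨⟨h5, h6⟩, h7⟩
                refine ⟨⟨h5, fun h8 => ?_⟩, h6⟩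
                rcases (hpart w).2 (Or.inr h8) with h9 | h9
                · exact h7 ⟨h9, h8⟩
                · exact h6 h9
              · rintro ⟨⟨h5, h6⟩, h7⟩
                exact ⟨⟨h5, h7⟩, fun h8 => h6 h8.2⟩
            have h3 : red (red E Y u v Q) (Y \ Q) u v (P ∩ D) =
                insert s(u, v) (E ∩ ((Y \ D) \ Q).sym2) := by
              unfold red
              rw [h2]
              have h7 : (Y \ D) \ Q ⊆ Y \ Q := sdiff_subset_sdiff sdiff_subset Subset.rfl
              ext e
              simp only [mem_insert, mem_inter]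
              constructor
              · rintro (h4 | ⟨h4 | ⟨h4, h5⟩, h6⟩)
                · exact Or.inl h4
                · exact Or.inl h4
                · exact Or.inr ⟨h4, h6⟩
              · rintro (h4 | ⟨h4, h5⟩)
                · exact Or.inl h4
                · exact Or.inr ⟨Or.inr ⟨h4, sym2_mono h7 h5⟩, h5⟩
            rw [h2, h3]
            exact hR
          · have h1 : Y \ Q = (Y \ D) \ Q := by
              ext w
              simp only [mem_sdiff]
              constructor
              · rintro ⟨h5, h6⟩
                refine ⟨⟨h5, fun h8 => ?_⟩, h6⟩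
                rcases (hpart w).2 (Or.inr h8) with h9 | h9
                · exact hPD ⟨w, mem_inter.2 ⟨h9, h8⟩⟩
                · exact h6 h9
              · rintro ⟨⟨h5, -⟩, h7⟩
                exact ⟨h5, h7⟩
            unfold red
            rw [h1]
            exact hR
        · -- `W` is inside the pair
          exfalso
          refine S4 hT1 ?_ hU'
          have h1 : W ∩ (Y \ D) ⊆ {u, v} := by
            intro w hw
            rw [mem_inter, mem_sdiff] at hw
            rw [mem_insert, mem_singleton]
            rcases (hY w).1 hw.2.1 with h2 | h2 | h2 | h2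
            · exact Or.inl h2
            · exact Or.inr h2
            · exfalso
              rcases (hpart w).1 (Or.inl h2) with h3 | h3
              · exact hPC ⟨w, mem_inter.2 ⟨h2, h3⟩⟩
              · exact hw.2.2 h3
            · exact absurd h2 (hWQ hw.1)
          exact (card_le_card h1).trans card_le_two
      rcases hc with ⟨h1, h2⟩ | ⟨h1, h2⟩
      · exact main h1 h2 hs' hU' ih
      · have h3 : red E Y u v D = red E Y v u D := by
          unfold red
          rw [Sym2.eq_swap]
        rw [h3] at hU' ih
        exact main h2 h1 hs'.flip hU' ih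
    · -- different pairs
      have hxy : (x ∉ C ∧ y ∉ C) ∨ (x ∉ D ∧ y ∉ D) := by
        by_cases h1 : x ∈ C
        · right
          exact ⟨hCD h1, fun h2 => hu u v C D hs' ⟨h1, h2⟩⟩
        · by_cases h2 : y ∈ C
          · right
            exact ⟨fun h3 => hu u v D C hs'.symm ⟨h3, h2⟩, hCD h2⟩
          · exact Or.inl ⟨h1, h2⟩
      -- one of `x`, `y` is not in the pair `u`, `v` and vice versa
      have hne1 : ∃ w, (w = x ∨ w = y) ∧ w ≠ u ∧ w ≠ v := by
        by_cases h1 : x ≠ u ∧ x ≠ v
        · exact ⟨x, Or.inl rfl, h1⟩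
        · refine ⟨y, Or.inr rfl, fun h2 => ?_, fun h2 => ?_⟩
          · apply h1
            refine ⟨fun h3 => hs.ne (h3.trans h2.symm), fun h3 => hc (Or.inr ⟨h2.symm, h3.symm⟩)⟩
          · apply h1
            refine ⟨fun h3 => hc (Or.inl ⟨h3.symm, h2.symm⟩), fun h3 => hs.ne (h3.trans h2.symm)⟩
      have hne2 : ∃ w, (w = u ∨ w = v) ∧ w ≠ x ∧ w ≠ y := by
        by_cases h1 : u ≠ x ∧ u ≠ y
        · exact ⟨u, Or.inl rfl, h1⟩
        · refine ⟨v, Or.inr rfl, fun h2 => ?_, fun h2 => ?_⟩
          · apply h1
            refine ⟨fun h3 => hs'.ne (h3.trans h2.symm), fun h3 => hc (Or.inr ⟨h3, h2⟩)⟩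
          · apply h1
            refine ⟨fun h3 => hc (Or.inl ⟨h3, h2⟩), fun h3 => hs'.ne (h3.trans h2.symm)⟩
      have hxY : x ∈ Y := (hY x).2 (Or.inl rfl)
      have hyY : y ∈ Y := (hY y).2 (Or.inr (Or.inl rfl))
      have huY : u ∈ Y := (hY' u).2 (Or.inl rfl)
      have hvY : v ∈ Y := (hY' v).2 (Or.inr (Or.inl rfl))
      rcases hxy with ⟨hxC, hyC⟩ | ⟨hxD, hyD⟩
      · rcases S6 hT hs hs' hxC hyC hc with ⟨hCP, huQ, hvQ⟩ | ⟨hCQ, huP, hvP⟩
        · -- `Q` is inside `D`
          have hQD : Q ⊆ D := by
            intro w hw
            rcases (hY' w).1 ((hY w).2 (Or.inr (Or.inr (Or.inr hw)))) with h2 | h2 | h2 | h2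
            · exact absurd (h2 ▸ hw) huQ
            · exact absurd (h2 ▸ hw) hvQ
            · exact absurd hw (hPQ (hCP h2))
            · exact h2
          obtain ⟨z, hz, hzu, hzv⟩ := hne1
          have hzD : z ∈ D ∧ z ∉ Q := by
            have hzY : z ∈ Y := by rcases hz with h2 | h2 <;> rw [h2] <;> assumption
            rcases (hY' z).1 hzY with h2 | h2 | h2 | h2
            · exact absurd h2 hzu
            · exact absurd h2 hzv
            · exfalso
              rcases hz with h3 | h3 <;> rw [h3] at h2
              · exact hxC h2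
              · exact hyC h2
            · refine ⟨h2, fun h3 => ?_⟩
              rcases hz with h4 | h4 <;> rw [h4] at h3
              · exact hs.xQ h3
              · exact hs.yQ h3
          have hs1 : Sep (red E Y x y Q) (Y \ Q) u v C (D \ Q) := by
            refine ⟨hs'.ne, hs'.xP, fun h => hs'.xQ (mem_sdiff.1 h).1, hs'.yP,
              fun h => hs'.yQ (mem_sdiff.1 h).1, hs'.P0, ⟨z, mem_sdiff.2 hzD⟩,
              hs'.dis.mono_right sdiff_subset, ?_, ?_⟩
            · ext w
              have h1 := hY' w
              simp only [mem_insert, mem_union, mem_sdiff]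
              constructor
              · rintro (h5 | h5 | h5 | h5)
                · exact ⟨h1.2 (Or.inl h5), h5 ▸ huQ⟩
                · exact ⟨h1.2 (Or.inr (Or.inl h5)), h5 ▸ hvQ⟩
                · exact ⟨h1.2 (Or.inr (Or.inr (Or.inl h5))), hPQ (hCP h5)⟩
                · exact ⟨h1.2 (Or.inr (Or.inr (Or.inr h5.1))), h5.2⟩
              · rintro ⟨h5, h6⟩
                rcases h1.1 h5 with h7 | h7 | h7 | h7
                · exact Or.inl h7
                · exact Or.inr (Or.inl h7)
                · exact Or.inr (Or.inr (Or.inl h7))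
                · exact Or.inr (Or.inr (Or.inr ⟨h7, h6⟩))
            · intro a ha b hb he
              rcases mem_red.1 he with h1 | h1
              · rcases Sym2.eq_iff.1 h1 with ⟨h2, -⟩ | ⟨h2, -⟩
                · exact hxC (h2 ▸ ha)
                · exact hyC (h2 ▸ ha)
              · exact hs'.noE a ha b (mem_sdiff.1 hb).1 h1.1
          refine U.step hs1 ?_
          have h2 : (Y \ Q) \ (D \ Q) = Y \ D := by
            ext w
            simp only [mem_sdiff, not_and, not_not]
            constructor
            · rintro ⟨⟨h5, h6⟩, h7⟩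
              exact ⟨h5, fun h8 => h6 (h7 h8)⟩
            · rintro ⟨h5, h6⟩
              exact ⟨⟨h5, fun h7 => h6 (hQD h7)⟩, fun h7 => absurd h7 h6⟩
          have h3 : red (red E Y x y Q) (Y \ Q) u v (D \ Q) = red E Y u v D := by
            unfold red
            rw [h2]
            have h7 : Y \ D ⊆ Y \ Q := sdiff_subset_sdiff Subset.rfl hQD
            ext e
            simp only [mem_insert, mem_inter]
            constructor
            · rintro (h4 | ⟨h4 | ⟨h4, h5⟩, h6⟩)
              · exact Or.inl h4
              · exfalso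
                rw [h4, mk_mem_sym2_iff, mem_sdiff, mem_sdiff] at h6
                rcases hz with h8 | h8 <;> rw [h8] at hzD
                · exact h6.1.2 hzD.1
                · exact h6.2.2 hzD.1
              · exact Or.inr ⟨h4, h6⟩
            · rintro (h4 | ⟨h4, h5⟩)
              · exact Or.inl h4
              · exact Or.inr ⟨Or.inr ⟨h4, sym2_mono h7 h5⟩, h5⟩
          rw [h2, h3]
          exact hU'
        · -- `P` is inside `D`
          exfalso
          refine S4 hT1 ?_ hU'
          have h1 : W ∩ (Y \ D) ⊆ {u, v} := by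
            intro w hw
            rw [mem_inter, mem_sdiff] at hw
            rw [mem_insert, mem_singleton]
            rcases (hY' w).1 hw.2.1 with h2 | h2 | h2 | h2
            · exact Or.inl h2
            · exact Or.inr h2
            · exact absurd (hCQ h2) (hWQ hw.1)
            · exact absurd h2 hw.2.2
          exact (card_le_card h1).trans card_le_two
      · rcases S6 hT hs hs'.symm hxD hyD hc with ⟨hDP, huQ, hvQ⟩ | ⟨hDQ, huP, hvP⟩
        · -- `D` is inside `P`
          obtain ⟨z, hz, hzx, hzy⟩ := hne2
          have hzP : z ∈ P ∧ z ∉ D := by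
            have hzY : z ∈ Y := by rcases hz with h2 | h2 <;> rw [h2] <;> assumption
            have hzQ : z ∉ Q := by rcases hz with h2 | h2 <;> rw [h2] <;> assumption
            rcases (hY z).1 hzY with h2 | h2 | h2 | h2
            · exact absurd h2 hzx
            · exact absurd h2 hzy
            · refine ⟨h2, ?_⟩
              rcases hz with h3 | h3 <;> rw [h3]
              · exact hs'.xQ
              · exact hs'.yQ
            · exact absurd h2 hzQ
          have hs1 : Sep (red E Y u v D) (Y \ D) x y (P \ D) Q := by
            refine ⟨hs.ne, fun h => hs.xP (mem_sdiff.1 h).1, hs.xQ, fun h => hs.yP (mem_sdiff.1 h).1,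
              hs.yQ, ⟨z, mem_sdiff.2 hzP⟩, hs.Q0, hs.dis.mono_left sdiff_subset, ?_, ?_⟩
            · ext w
              have h1 := hY w
              simp only [mem_insert, mem_union, mem_sdiff]
              constructor
              · rintro (h5 | h5 | h5 | h5)
                · exact ⟨h1.2 (Or.inl h5), h5 ▸ hxD⟩
                · exact ⟨h1.2 (Or.inr (Or.inl h5)), h5 ▸ hyD⟩
                · exact ⟨h1.2 (Or.inr (Or.inr (Or.inl h5.1))), h5.2⟩
                · exact ⟨h1.2 (Or.inr (Or.inr (Or.inr h5))), fun h6 => hPQ (hDP h6) h5⟩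
              · rintro ⟨h5, h6⟩
                rcases h1.1 h5 with h7 | h7 | h7 | h7
                · exact Or.inl h7
                · exact Or.inr (Or.inl h7)
                · exact Or.inr (Or.inr (Or.inl ⟨h7, h6⟩))
                · exact Or.inr (Or.inr (Or.inr h7))
            · intro a ha b hb he
              rcases mem_red.1 he with h1 | h1
              · rcases Sym2.eq_iff.1 h1 with ⟨-, h2⟩ | ⟨-, h2⟩
                · exact hvQ (h2 ▸ hb)
                · exact huQ (h2 ▸ hb)
              · exact hs.noE a (mem_sdiff.1 ha).1 b hb h1.1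
          have hi := ih hT1 hs1 (unc_red hu hs') hW
          obtain ⟨z', hz', hzu', hzv'⟩ := hne1
          have hzC : z' ∈ C ∧ z' ∉ Q := by
            have hzY : z' ∈ Y := by rcases hz' with h2 | h2 <;> rw [h2] <;> assumption
            have hzD : z' ∉ D := by rcases hz' with h2 | h2 <;> rw [h2] <;> assumption
            rcases (hY' z').1 hzY with h2 | h2 | h2 | h2
            · exact absurd h2 hzu'
            · exact absurd h2 hzv'
            · refine ⟨h2, ?_⟩
              rcases hz' with h3 | h3 <;> rw [h3]
              · exact hs.xQ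
              · exact hs.yQ
            · exact absurd h2 hzD
          have hs2 : Sep (red E Y x y Q) (Y \ Q) u v (C \ Q) D := by
            refine ⟨hs'.ne, fun h => hs'.xP (mem_sdiff.1 h).1, hs'.xQ, fun h => hs'.yP (mem_sdiff.1 h).1,
              hs'.yQ, ⟨z', mem_sdiff.2 hzC⟩, hs'.Q0, hs'.dis.mono_left sdiff_subset, ?_, ?_⟩
            · ext w
              have h1 := hY' w
              simp only [mem_insert, mem_union, mem_sdiff]
              constructor
              · rintro (h5 | h5 | h5 | h5)
                · exact ⟨h1.2 (Or.inl h5), h5 ▸ huQ⟩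
                · exact ⟨h1.2 (Or.inr (Or.inl h5)), h5 ▸ hvQ⟩
                · exact ⟨h1.2 (Or.inr (Or.inr (Or.inl h5.1))), h5.2⟩
                · exact ⟨h1.2 (Or.inr (Or.inr (Or.inr h5))), hPQ (hDP h5)⟩
              · rintro ⟨h5, h6⟩
                rcases h1.1 h5 with h7 | h7 | h7 | h7
                · exact Or.inl h7
                · exact Or.inr (Or.inl h7)
                · exact Or.inr (Or.inr (Or.inl ⟨h7, h6⟩))
                · exact Or.inr (Or.inr (Or.inr h7))
            · intro a ha b hb he
              rcases mem_red.1 he with h1 | h1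
              · rcases Sym2.eq_iff.1 h1 with ⟨-, h2⟩ | ⟨-, h2⟩
                · exact hyD (h2 ▸ hb)
                · exact hxD (h2 ▸ hb)
              · exact hs'.noE a (mem_sdiff.1 ha).1 b hb h1.1
          refine U.step hs2 ?_
          have h2 : (Y \ Q) \ D = (Y \ D) \ Q := by
            ext w
            simp only [mem_sdiff]
            tauto
          have h3 : red (red E Y x y Q) (Y \ Q) u v D = red (red E Y u v D) (Y \ D) x y Q := by
            unfold red
            rw [h2]
            have h7 : (Y \ D) \ Q ⊆ Y \ Q := sdiff_subset_sdiff sdiff_subset Subset.rfl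
            have h8 : (Y \ D) \ Q ⊆ Y \ D := sdiff_subset
            have h9 : s(x, y) ∈ ((Y \ D) \ Q).sym2 := by
              rw [mk_mem_sym2_iff, mem_sdiff, mem_sdiff, mem_sdiff, mem_sdiff]
              exact ⟨⟨⟨hxY, hxD⟩, hs.xQ⟩, ⟨hyY, hyD⟩, hs.yQ⟩
            have h10 : s(u, v) ∈ ((Y \ D) \ Q).sym2 := by
              rw [mk_mem_sym2_iff, mem_sdiff, mem_sdiff, mem_sdiff, mem_sdiff]
              exact ⟨⟨⟨huY, hs'.xQ⟩, huQ⟩, ⟨hvY, hs'.yQ⟩, hvQ⟩
            ext e
            simp only [mem_insert, mem_inter]
            constructor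
            · rintro (h4 | ⟨h4 | ⟨h4, h5⟩, h6⟩)
              · exact Or.inr ⟨Or.inl h4, h4 ▸ h10⟩
              · exact Or.inl h4
              · exact Or.inr ⟨Or.inr ⟨h4, sym2_mono h8 h6⟩, h6⟩
            · rintro (h4 | ⟨h4 | ⟨h4, h5⟩, h6⟩)
              · exact Or.inr ⟨Or.inl h4, h4 ▸ h9⟩
              · exact Or.inl h4
              · exact Or.inr ⟨Or.inr ⟨h4, sym2_mono h7 h6⟩, h6⟩
          rw [h2, h3]
          exact hi
        · -- `D` is inside `Q`
          obtain ⟨z, hz, hzx, hzy⟩ := hne2
          have hzQ : z ∈ Q ∧ z ∉ D := by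
            have hzY : z ∈ Y := by rcases hz with h2 | h2 <;> rw [h2] <;> assumption
            have hzP : z ∉ P := by rcases hz with h2 | h2 <;> rw [h2] <;> assumption
            rcases (hY z).1 hzY with h2 | h2 | h2 | h2
            · exact absurd h2 hzx
            · exact absurd h2 hzy
            · exact absurd h2 hzP
            · refine ⟨h2, ?_⟩
              rcases hz with h3 | h3 <;> rw [h3]
              · exact hs'.xQ
              · exact hs'.yQ
          have hs1 : Sep (red E Y u v D) (Y \ D) x y P (Q \ D) := by
            refine ⟨hs.ne, hs.xP, fun h => hs.xQ (mem_sdiff.1 h).1, hs.yP,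
              fun h => hs.yQ (mem_sdiff.1 h).1, hs.P0, ⟨z, mem_sdiff.2 hzQ⟩,
              hs.dis.mono_right sdiff_subset, ?_, ?_⟩
            · ext w
              have h1 := hY w
              simp only [mem_insert, mem_union, mem_sdiff]
              constructor
              · rintro (h5 | h5 | h5 | h5)
                · exact ⟨h1.2 (Or.inl h5), h5 ▸ hxD⟩
                · exact ⟨h1.2 (Or.inr (Or.inl h5)), h5 ▸ hyD⟩
                · exact ⟨h1.2 (Or.inr (Or.inr (Or.inl h5))), fun h6 => hPQ h5 (hDQ h6)⟩
                · exact ⟨h1.2 (Or.inr (Or.inr (Or.inr h5.1))), h5.2⟩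
              · rintro ⟨h5, h6⟩
                rcases h1.1 h5 with h7 | h7 | h7 | h7
                · exact Or.inl h7
                · exact Or.inr (Or.inl h7)
                · exact Or.inr (Or.inr (Or.inl h7))
                · exact Or.inr (Or.inr (Or.inr ⟨h7, h6⟩))
            · intro a ha b hb he
              rcases mem_red.1 he with h1 | h1
              · rcases Sym2.eq_iff.1 h1 with ⟨h2, -⟩ | ⟨h2, -⟩
                · exact huP (h2 ▸ ha)
                · exact hvP (h2 ▸ ha)
              · exact hs.noE a ha b (mem_sdiff.1 hb).1 h1.1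
          have hi := ih hT1 hs1 (unc_red hu hs') (hW.mono_right sdiff_subset)
          have h2 : (Y \ D) \ (Q \ D) = Y \ Q := by
            ext w
            simp only [mem_sdiff, not_and, not_not]
            constructor
            · rintro ⟨⟨h5, h6⟩, h7⟩
              exact ⟨h5, fun h8 => h6 (h7 h8)⟩
            · rintro ⟨h5, h6⟩
              exact ⟨⟨h5, fun h7 => h6 (hDQ h7)⟩, fun h7 => absurd h7 h6⟩
          have h3 : red (red E Y u v D) (Y \ D) x y (Q \ D) = red E Y x y Q := by
            unfold red
            rw [h2]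
            have h7 : Y \ Q ⊆ Y \ D := sdiff_subset_sdiff Subset.rfl hDQ
            ext e
            simp only [mem_insert, mem_inter]
            constructor
            · rintro (h4 | ⟨h4 | ⟨h4, h5⟩, h6⟩)
              · exact Or.inl h4
              · exfalso
                rw [h4, mk_mem_sym2_iff, mem_sdiff, mem_sdiff] at h6
                rcases hz with h8 | h8 <;> rw [h8] at hzQ
                · exact h6.1.2 hzQ.1
                · exact h6.2.2 hzQ.1
              · exact Or.inr ⟨h4, h6⟩
            · rintro (h4 | ⟨h4, h5⟩)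
              · exact Or.inl h4
              · exact Or.inr ⟨Or.inr ⟨h4, sym2_mono h7 h5⟩, h5⟩
          rw [h2, h3] at hi
          exact hi

end H56LD
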